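import Mathlib

/-!
# Project TW, part BU: a Borsuk-Ulam theorem with weights for products of unit spheres

Definitions.  `ι` is the set of variables, `κ` the set of blocks, `b : ι → κ` sends a variable to
its block.
-/

namespace Pool.Agent.Helper70.BU

open MvPolynomial

variable {ι κ : Type}

/-- The number of variables in block `k`. -/
def bn [Fintype ι] [DecidableEq κ] (b : ι → κ) (k : κ) : ℕ :=
  (Finset.univ.filter (fun i => b i = k)).card

/-- The product of the unit spheres of the blocks. -/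
def Sph [Fintype ι] [DecidableEq κ] (b : ι → κ) : Set (ι → ℂ) :=
  {z | ∀ k, ∑ i with b i = k, ‖z i‖ ^ 2 = 1}

/-- The variable `i` has multidegree the unit vector of its block. -/
def wt [DecidableEq κ] (b : ι → κ) (i : ι) : κ → ℕ := Pi.single (b i) 1

/-- The space of multihomogeneous polynomials of multidegree `m`. -/
noncomputable def H [DecidableEq κ] (b : ι → κ) (m : κ → ℕ) : Submodule ℂ (MvPolynomial ι ℂ) :=
  weightedHomogeneousSubmodule ℂ (wt b) m

/-- `m' = m + χ`. -/
def Sh (m : κ → ℕ) (χ : κ → ℤ) (m' : κ → ℕ) : Prop := ∀ k, (m' k : ℤ) = m k + χ k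

/-- All entries of the multidegree `m` are within distance `K` of `n`. -/
def Near (K n : ℕ) (m : κ → ℕ) : Prop := ∀ k, m k ≤ n + K ∧ n ≤ m k + K

/-- The function `G` on the product of spheres has weight `χ` in the following approximate sense:
it is bounded there, and for `n → ∞` multiplication by `G` on the spaces `H b m` with `m` near
`(n, …, n)` is approximated by linear maps `H b m → H b (m + χ)`, with error `C / √n` in sup norm
on the product of spheres. -/
def Apx [Fintype ι] [DecidableEq κ] (b : ι → κ) (G : (ι → ℂ) → ℂ) (χ : κ → ℤ) : Prop :=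
  (∃ B : ℝ, ∀ z ∈ Sph b, ‖G z‖ ≤ B) ∧
  ∀ K : ℕ, ∃ (C : ℝ) (n₀ : ℕ), 0 ≤ C ∧ ∀ n ≥ n₀, ∀ m m' : κ → ℕ, Near K n m → Sh m χ m' →
    ∃ T : H b m →ₗ[ℂ] H b m', ∀ (u : H b m) (M : ℝ),
      (∀ z ∈ Sph b, ‖eval z (u : MvPolynomial ι ℂ)‖ ≤ M) →
      ∀ z ∈ Sph b, ‖eval z (T u : MvPolynomial ι ℂ) - G z * eval z (u : MvPolynomial ι ℂ)‖ ≤
        C / Real.sqrt n * M

/-- The value of a polynomial in the variables `z i` (the variables `Sum.inl i`) and their complex
conjugates (the variables `Sum.inr i`). -/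
noncomputable def evc (F : MvPolynomial (ι ⊕ ι) ℂ) (z : ι → ℂ) : ℂ :=
  eval (Sum.elim z (fun i => (starRingEnd ℂ) (z i))) F

/-- All monomials of `F` have weight `χ`: in every block the degree in the variables minus the
degree in the conjugate variables is `χ k`. -/
def Wh [Fintype ι] [DecidableEq κ] (b : ι → κ) (χ : κ → ℤ) (F : MvPolynomial (ι ⊕ ι) ℂ) : Prop :=
  ∀ d ∈ F.support, ∀ k, ∑ i with b i = k, ((d (Sum.inl i) : ℤ) - (d (Sum.inr i) : ℤ)) = χ k

/-- Iterated differences: `dif [χ₁, …, χ_r] X = (1 - E^χ₁) ⋯ (1 - E^χ_r) X` where `E^χ` is the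
shift by `χ`. -/
def dif {W A : Type} [Add W] [Sub A] : List W → (W → A) → W → A
  | [], X, n => X n
  | χ :: L, X, n => dif L X n - dif L X (n + χ)

end Pool.Agent.Helper70.BU
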