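import Pool.Agent.Helper70.BU.Defs

/-!
# Project TW, part BU: goals

Every goal is a proposition `def NAME : Prop`; a packet `NAME` asks for a theorem whose statement
is `Pool.Agent.Helper70.BU.NAME` (with the stated earlier goals as hypotheses, which are proved in
other packets).  Every docstring contains a complete proof.
-/

namespace Pool.Agent.Helper70.BU

open MvPolynomial

/-- **CE** (Cauchy estimate).  Let `u` be multihomogeneous of multidegree `m`, `i` a variable,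
`k = b i`, `m k ≥ 1`, and `|u| ≤ M` on the product of spheres.  Then for `z` in the product of
spheres, `|∂_i u (z) - m_k \bar z_i u (z)| ≤ 2 √(m_k) M`.

PROOF.  Fix `z`.  Let `τ : ι → ℂ` be `τ_j = δ_{ij} - \bar z_i z_j` for `j` in block `k` and
`τ_j = 0` for `j` outside block `k`.  Then `∑_{j ∈ block k} τ_j \bar z_j = \bar z_i - \bar z_i = 0`
(as `∑_{block k} |z_j|² = 1`) and `∑_{block k} |τ_j|² = 1 - |z_i|² ≤ 1`.  Hence for `t ∈ ℂ`,
`∑_{j ∈ block k} |z_j + t τ_j|² = 1 + |t|² ∑ |τ_j|² ∈ [1, 1 + |t|²]`.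
Let `g(t) = u (z + t τ)`, a polynomial in `t`.  By the chain rule and Euler's identity in block
`k` (`∑_{j ∈ block k} z_j ∂_j u = m_k u`; check it on monomials),
`g'(0) = ∑_j τ_j ∂_j u (z) = ∂_i u(z) - \bar z_i ∑_{j ∈ block k} z_j ∂_j u (z)
 = ∂_i u (z) - m_k \bar z_i u (z)`.
If `y` is a point whose blocks other than `k` are unit vectors and whose block `k` has norm
`ρ > 0` then `y'` (divide block `k` of `y` by `ρ`) is in `Sph b` and `u (y) = ρ^{m_k} u (y')`
(check it on monomials) so `|u (y)| ≤ ρ^{m_k} M`.  So for `|t| = s := 1/√(m_k)`: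
`|g(t)| ≤ (1 + s²)^{m_k/2} M ≤ exp (s² m_k / 2) M = e^{1/2} M ≤ 2 M`.
(To avoid real powers: `ρ^{m_k}` with `ρ² ≤ 1 + 1/m_k`, so `(ρ^{m_k})² ≤ (1 + 1/m_k)^{m_k} ≤ e ≤ 4`.)
The Cauchy estimate `Complex.norm_deriv_le_of_forall_mem_sphere_norm_le` gives
`|g'(0)| ≤ 2 M / s = 2 √(m_k) M`.  (`M ≥ 0` because `|u z| ≤ M`.) -/
def CE : Prop :=
  ∀ (ι κ : Type) [Fintype ι] [DecidableEq ι] [Fintype κ] [DecidableEq κ] (b : ι → κ) (m : κ → ℕ)
    (i : ι) (u : MvPolynomial ι ℂ), u ∈ H b m → 1 ≤ m (b i) →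
    ∀ M : ℝ, (∀ z ∈ Sph b, ‖eval z u‖ ≤ M) → ∀ z ∈ Sph b,
      ‖eval z (pderiv i u) - (m (b i) : ℂ) * (starRingEnd ℂ) (z i) * eval z u‖ ≤
        2 * Real.sqrt (m (b i)) * M

/-- **APXB** (basic functions; the packet may use `CE` as a hypothesis: prove `CE → APXB`).
Constants have weight `0`, the coordinate function `z_i` has weight `e_{b i}`, and its conjugate
has weight `- e_{b i}`.

PROOF.  Boundedness: `|z_i|² ≤ ∑_{block b i} |z_j|² = 1` on `Sph b`.
Constants: `Sh m 0 m'` forces `m' = m`; `T = c • id`, error `0`, `C = 0`, `n₀ = 0`.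
Coordinates: `T u = X i * u` lies in `H b m'` (weights add up); error `0`.
Conjugates: given `K`, let `n₀ = K + 1` and let `n ≥ n₀`; then `m k ≥ n - K ≥ 1`.  Let
`T u = (1 / n) • pderiv i u`, which lies in `H b m'` where `m' = m - e_{b i}` (check the support:
`coeff d (pderiv i u) = coeff (d + single i 1) u * (d i + 1)`; or
`MvPolynomial.pderiv` lemmas).  With `k = b i`, on `Sph b`,
`|T u (z) - \bar z_i u (z)| ≤ (1/n) |∂_i u - m_k \bar z_i u| + |m_k / n - 1| |\bar z_i| |u (z)|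
 ≤ (2 √(m_k) / n + K / n) M ≤ (2 √(n + K) / n + K / n) M ≤ (2 √2 + K) / √n * M`
since `m_k ≤ n + K ≤ 2 n` and `1 / n ≤ 1 / √n`.  So `C = 4 + K` works. -/
def APXB : Prop :=
  ∀ (ι κ : Type) [Fintype ι] [DecidableEq ι] [Fintype κ] [DecidableEq κ] (b : ι → κ),
    (∀ c : ℂ, Apx b (fun _ => c) 0) ∧
    (∀ i, Apx b (fun z => z i) (fun k => if b i = k then 1 else 0)) ∧
    (∀ i, Apx b (fun z => (starRingEnd ℂ) (z i)) (fun k => if b i = k then -1 else 0))

/-- **APXC** (closure properties): `0` has every weight; closed under negation and addition (same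
weight); the product has the sum of the weights.

PROOF.  `0`: `T = 0`.  Negation: `-T`.  Sum: `T₁ + T₂` with `C = C₁ + C₂`, `n₀ = max`.
Product: let `B₁, B₂ ≥ 0` be bounds of `G₁, G₂`.  Given `K`, let `K₂` be a bound of all `|χ₂ k|`
(`κ` is finite).  Let `C₂, n₂` be the constants of `G₂` for `K` and `C₁, n₁` those of `G₁` for
`K + K₂`.  For `n ≥ max (n₁, n₂, K + K₂, 1)`, `m` near `n`, let `m'' = m + χ₂` (which is `≥ 0`
because `m k ≥ n - K ≥ K₂`; use `Int.toNat`).  Then `Sh m χ₂ m''`, `Sh m'' χ₁ m'` and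
`Near (K + K₂) n m''`.  Let `T = T₁ ∘ T₂`.  On `Sph b` (so `M ≥ 0`), `|T₂ u| ≤ B₂ M + C₂/√n M
≤ (B₂ + C₂) M` (as `√n ≥ 1`), and
`|T₁ (T₂ u) - G₁ G₂ u| ≤ |T₁ (T₂ u) - G₁ (T₂ u)| + |G₁| |T₂ u - G₂ u|
 ≤ (C₁/√n) (B₂ + C₂) M + B₁ (C₂/√n) M`.  So `C = C₁ (B₂ + C₂) + B₁ C₂`. -/
def APXC : Prop :=
  ∀ (ι κ : Type) [Fintype ι] [DecidableEq ι] [Fintype κ] [DecidableEq κ] (b : ι → κ),
    (∀ χ, Apx b (fun _ => 0) χ) ∧
    (∀ G χ, Apx b G χ → Apx b (fun z => - G z) χ) ∧
    (∀ G₁ G₂ χ, Apx b G₁ χ → Apx b G₂ χ → Apx b (fun z => G₁ z + G₂ z) χ) ∧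
    (∀ G₁ G₂ χ₁ χ₂, Apx b G₁ χ₁ → Apx b G₂ χ₂ → Apx b (fun z => G₁ z * G₂ z) (χ₁ + χ₂))

/-- **APXP** (polynomials; prove `APXB → APXC → APXP`).  If all monomials of `F` have weight `χ`
then `z ↦ F (z, \bar z)` has weight `χ` and its conjugate has weight `-χ`.

PROOF.  `evc F z = ∑_{d ∈ F.support} coeff d F * ∏_i z_i^{d (inl i)} * ∏_i (\bar z_i)^{d (inr i)}`
(`MvPolynomial.eval_eq'` and `Fintype.prod_sum_type`).  By APXB and the product rule (induction on
exponents and on finite products) the term of `d` has weight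
`∑_i (d (inl i) - d (inr i)) e_{b i}`, whose value at `k` is `∑_{i in block k} (d (inl i) - d (inr i))
= χ k`.  Sum over `d` with the sum rule (start with the zero function, which has weight `χ`).
The conjugate function is `∑_d conj (coeff d F) ∏ \bar z_i^{d (inl i)} ∏ z_i^{d (inr i)}`, which is
treated in the same way (or: it is `evc F' z` for the polynomial `F'` obtained by conjugating
the coefficients and swapping `inl` and `inr`, and `Wh b (-χ) F'`). -/
def APXP : Prop :=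
  ∀ (ι κ : Type) [Fintype ι] [DecidableEq ι] [Fintype κ] [DecidableEq κ] (b : ι → κ)
    (F : MvPolynomial (ι ⊕ ι) ℂ) (χ : κ → ℤ), Wh b χ F →
    Apx b (evc F) χ ∧ Apx b (fun z => (starRingEnd ℂ) (evc F z)) (-χ)

/-- **CLIF** (Clifford/Koszul matrices).  Let `S` be a set of pairs (function `Z → ℂ`, weight),
closed under negation of the function and containing `(0, χ)` for all `χ`.  For a list `L` of pairs
`(G, χ)` with `(G, χ) ∈ S` and `(conj G, -χ) ∈ S` there is a matrix `A` (rows `Q`, columns `P`) of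
functions, with weights `p` on the columns and `q` on the rows, such that `(A c a, q c - p a) ∈ S`
and `(conj (A c a), p a - q c) ∈ S`, `|A x|² = |L|² |x|²`, `|A* y|² = |L|² |y|²` where
`|L|² = ∑_{G ∈ L} |G z|²`, and for every function `X` of the weights
`∑_a X (n + p a) - ∑_c X (n + q c) = dif (L.map snd) X n`.

PROOF.  Induction on `L`.  `L = []`: `P = Unit`, `p = 0`, `Q = Empty`.
`L = (f, χ) :: L'` with `(P, Q, p, q, A)` for `L'`: let `P' = P ⊕ Q`, `Q' = Q ⊕ P`,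
`p' (inl a) = p a`, `p' (inr c) = q c + χ`, `q' (inl c) = q c`, `q' (inr a) = p a + χ` and
`A' (inl c) (inl a) = A c a`, `A' (inl c) (inr c₁) = if c = c₁ then conj f else 0`,
`A' (inr a) (inl a₁) = if a = a₁ then -f else 0`, `A' (inr a) (inr c) = conj (A c a)`.
That is `A' (x, y) = (A x + conj f y, -f x + A* y)`.  Weights: `q c - (q c + χ) = -χ` for `conj f`,
`(p a + χ) - p a = χ` for `-f`, `(p a + χ) - (q c + χ) = p a - q c` for `conj (A c a)`; the
conjugate entries have the opposite weights and are again in `S`.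
Norms: `|A x + conj f y|² + |-f x + A* y|² = |A x|² + |A* y|² + |f|² (|x|² + |y|²)
 + 2 Re (f ⟨A x, y⟩) - 2 Re (f ⟨x, A* y⟩)` with `⟨u, v⟩ = ∑ u conj v`, and
`⟨A x, y⟩ = ∑_{c, a} A c a x_a conj (y c) = ⟨x, A* y⟩`, so the cross terms cancel.
The adjoint is `A'* (u, v) = (A* u - conj f v, f u + A v)` and the same computation applies.
Differences: `∑_{P'} X (n + p') - ∑_{Q'} X (n + q')
 = (∑_P X (n + p) - ∑_Q X (n + q)) - (∑_P X (n + χ + p) - ∑_Q X (n + χ + q))`. -/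
def CLIF : Prop :=
  ∀ (Z W : Type) [AddCommGroup W] (S : (Z → ℂ) → W → Prop),
    (∀ χ, S (fun _ => 0) χ) → (∀ G χ, S G χ → S (fun z => - G z) χ) →
    ∀ L : List ((Z → ℂ) × W),
      (∀ g ∈ L, S g.1 g.2 ∧ S (fun z => (starRingEnd ℂ) (g.1 z)) (-g.2)) →
    ∃ (P Q : Type) (_ : Fintype P) (_ : Fintype Q) (p : P → W) (q : Q → W)
      (A : Q → P → Z → ℂ),
      (∀ c a, S (A c a) (q c - p a) ∧ S (fun z => (starRingEnd ℂ) (A c a z)) (p a - q c)) ∧
      (∀ z (x : P → ℂ), ∑ c, ‖∑ a, A c a z * x a‖ ^ 2 =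
        (L.map (fun g => ‖g.1 z‖ ^ 2)).sum * ∑ a, ‖x a‖ ^ 2) ∧
      (∀ z (y : Q → ℂ), ∑ a, ‖∑ c, (starRingEnd ℂ) (A c a z) * y c‖ ^ 2 =
        (L.map (fun g => ‖g.1 z‖ ^ 2)).sum * ∑ c, ‖y c‖ ^ 2) ∧
      (∀ (X : W → ℤ) (n : W), ∑ a, X (n + p a) - ∑ c, X (n + q c) =
        dif (L.map Prod.snd) X n)

/-- **INJ**.  If a matrix `A` of functions with (approximate) weights `q c - p a` satisfies
`|A(z) x|² ≥ c₀ |x|²` on the product of spheres then for all large `n`,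
`∑_a dim H (n + p a) ≤ ∑_c dim H (n + q c)`.

PROOF.  (0) If `u ∈ H b m` vanishes on `Sph b` then `u = 0`: for `z` with all `z_i ≠ 0` every block
has nonzero norm (every block is nonempty), scaling the blocks to norm one changes `u (z)` by
nonzero factors, so `u (z) = 0`; so the polynomial `u * ∏_i X_i` vanishes at all points, hence is
`0` (`MvPolynomial.funext`), hence `u = 0`.
(1) `Sph b` is compact (closed and bounded in `ι → ℂ`) and nonempty.
(2) Choose `K` with `|p a k| ≤ K` for all `a, k`, take a common `C` and `n₁` from the `Apx`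
hypotheses for all pairs `(c, a)` and this `K`.  `H b m` is finite-dimensional.
For `n ≥ n₁` we have `Near K n (mP a)` and `Sh (mP a) (q c - p a) (mQ c)`; let `T c a` be the linear
maps from `Apx` and `T : (∀ a, H b (mP a)) → (∀ c, H b (mQ c))`, `T u c = ∑_a T c a (u a)`.
(3) `T` is injective if `n > #Q (#P)² C² / c₀`: let `T u = 0`, `u ≠ 0`.  Let `M` be the maximum of
`|u a (z)|` over `a` and `z ∈ Sph b`, attained at `(a₀, z₀)`; `M > 0` by (0).  For every `c`,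
`|∑_a A c a (z₀) u_a (z₀)| = |∑_a (A c a (z₀) u_a (z₀) - (T c a u_a) (z₀))| ≤ #P (C/√n) M`.  Hence
`c₀ M² ≤ c₀ ∑_a |u_a (z₀)|² ≤ #Q (#P)² C² M² / n`, a contradiction.
(4) So `finrank` of the source is at most that of the target
(`LinearMap.finrank_le_finrank_of_injective`, `Module.finrank_pi_fintype`). -/
def INJ : Prop :=
  ∀ (ι κ P Q : Type) [Fintype ι] [DecidableEq ι] [Fintype κ] [DecidableEq κ] [Fintype P]
    [Fintype Q] (b : ι → κ) (p : P → κ → ℤ) (q : Q → κ → ℤ) (A : Q → P → (ι → ℂ) → ℂ) (c₀ : ℝ),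
    (∀ k, 1 ≤ bn b k) → 0 < c₀ → (∀ c a, Apx b (A c a) (q c - p a)) →
    (∀ z ∈ Sph b, ∀ x : P → ℂ, c₀ * ∑ a, ‖x a‖ ^ 2 ≤ ∑ c, ‖∑ a, A c a z * x a‖ ^ 2) →
    ∃ n₀ : ℕ, ∀ n ≥ n₀, ∀ (mP : P → κ → ℕ) (mQ : Q → κ → ℕ),
      (∀ a k, (mP a k : ℤ) = n + p a k) → (∀ c k, (mQ c k : ℤ) = n + q c k) →
      ∑ a, Module.finrank ℂ (H b (mP a)) ≤ ∑ c, Module.finrank ℂ (H b (mQ c))

/-- **DIM**.  The dimension of the space of multihomogeneous polynomials.

PROOF.  `MvPolynomial.weightedHomogeneousSubmodule_eq_finsupp_supported` identifies `H b m` with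
`Finsupp.supported ℂ ℂ {d | weight (wt b) d = m}`; the condition says `∑_{i in block k} d i = m k`
for all `k`.  This set of `d : ι →₀ ℕ` is in bijection with the product over `k` of the sets of
functions on block `k` with sum `m k`, i.e. `Sym (block k) (m k)`, of cardinality
`(bn b k + m k - 1).choose (m k) = (m k + (bn b k - 1)).choose (bn b k - 1)` (`Sym.card_sym_eq_choose`
or `Finset.card_finsuppAntidiag`/`Finset.Nat.card_piAntidiag`-type lemmas; or stars and bars).  So it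
is finite and `finrank` is its cardinality. -/
def DIM : Prop :=
  ∀ (ι κ : Type) [Fintype ι] [DecidableEq ι] [Fintype κ] [DecidableEq κ] (b : ι → κ) (m : κ → ℕ),
    (∀ k, 1 ≤ bn b k) → FiniteDimensional ℂ (H b m) ∧
      Module.finrank ℂ (H b m) = ∏ k, (m k + (bn b k - 1)).choose (bn b k - 1)

/-- **DIFF**.  The `r`-fold difference of `Y m = ∏_k (m_k + e_k choose e_k)`, `r = ∑ e_k`, is the
constant `(-1)^r` times the coefficient of `∏ x_k^{e_k}` in `∏_l ∑_k χ_l(k) x_k`.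

PROOF (polynomial version).  For `P ∈ ℚ[x_k : k ∈ κ]` and `χ ∈ ℤ^κ` let
`Δ_χ P = P (x) - P (x + χ)`.  If `P` has total degree `≤ s + 1` with top homogeneous component
`P_{s+1}`, then `Δ_χ P` has total degree `≤ s` with component of degree `s` equal to
`- D_χ P_{s+1}`, `D_χ = ∑_k χ_k ∂_k` (check it on monomials), and if `P` has total degree `≤ 0`
then `Δ_χ P = 0`.  So for `P` of total degree `≤ r` the `r`-fold difference is the constant
`(-1)^r D_{χ_1} ⋯ D_{χ_r} P_r`.  Here `P = ∏_k (x_k + 1) ⋯ (x_k + e_k) / e_k!`,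
`P_r = ∏_k x_k^{e_k} / e_k!`, and `D_{χ_1} ⋯ D_{χ_r} P_r` is the coefficient of `x^e` in
`∏_l ∑_k χ_l(k) x_k` because `∂^d (x^e / e!) = δ_{d, e}` for `|d| = |e|`.
`dif L Y n` only uses values of `Y` at `n + (sums of elements of L)`, which are `≥ 0` for `n ≥ B`.

ALTERNATIVE (power series version).  In `ℤ[[t_k : k ∈ κ]]` the elements `1 + t_k` are units;
for `m ≥ 0`, `Y m` is the coefficient of `t^e` in `∏_k (1 + t_k)^{m_k + e_k}`.  So `dif L Y n` is the
coefficient of `t^e` in `∏_k (1 + t_k)^{n_k + e_k} * ∏_l (1 - ∏_k (1 + t_k)^{χ_l(k)})`.  Each of the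
`r = |e|` factors `1 - ∏_k (1 + t_k)^{χ_l(k)}` is `- ∑_k χ_l(k) t_k` plus terms of degree `≥ 2`, so
the coefficient of `t^e` is that of `∏_l (- ∑_k χ_l(k) t_k)`. -/
def DIFF : Prop :=
  ∀ (κ : Type) [Fintype κ] [DecidableEq κ] (e : κ → ℕ) (L : List (κ → ℤ)),
    L.length = ∑ k, e k → ∃ B : ℤ, ∀ Y : (κ → ℤ) → ℤ,
      (∀ m : κ → ℤ, (∀ k, 0 ≤ m k) → Y m = ∏ k, ((((m k).toNat + e k).choose (e k) : ℕ) : ℤ)) →
      ∀ n : κ → ℤ, (∀ k, B ≤ n k) →
        dif L Y n = (-1) ^ L.length *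
          coeff (Finsupp.equivFunOnFinite.symm e)
            (L.map (fun χ : κ → ℤ => (∑ k, C (χ k) * X k : MvPolynomial κ ℤ))).prod

/-- **BUT** (assembly, by helper70).  The Borsuk-Ulam theorem with weights: exact version. -/
def BUT : Prop :=
  ∀ (ι κ Λ : Type) [Fintype ι] [DecidableEq ι] [Fintype κ] [DecidableEq κ] [Fintype Λ]
    (b : ι → κ) (χ : Λ → κ → ℤ) (F : Λ → MvPolynomial (ι ⊕ ι) ℂ),
    (∀ k, 1 ≤ bn b k) → ∑ k, (bn b k - 1) = Fintype.card Λ → (∀ l, Wh b (χ l) (F l)) →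
    coeff (Finsupp.equivFunOnFinite.symm (fun k => bn b k - 1))
      (∏ l, ∑ k, C (χ l k) * X k : MvPolynomial κ ℤ) ≠ 0 →
    ∃ z ∈ Sph b, ∀ l, evc (F l) z = 0

/-- **BUG** (prove `BUT → BUG`): the version with fewer equations.

PROOF.  Choose in every block `k` a set of `e k + 1 ≤ bn b k` variables
(`Finset.exists_subset_card_eq`); let `ι₁ ⊆ ι` be the union (a subtype), `b₁ = b` restricted to
`ι₁`, so `bn b₁ k = e k + 1`.  Let `F₁ l` be `F l` with all variables outside `ι₁` (both `inl`, `inr`)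
replaced by `0` (`aeval` with `fun s => if h : _ then X _ else 0`; its monomials are the monomials
of `F l` supported on `ι₁`, so `Wh b₁ (χ l) (F₁ l)`).
By BUT there is `z₁ ∈ Sph b₁` with `evc (F₁ l) z₁ = 0`; extend `z₁` by zero to `z : ι → ℂ`.  Then
`z ∈ Sph b` and `evc (F l) z = evc (F₁ l) z₁ = 0`. -/
def BUG : Prop :=
  ∀ (ι κ Λ : Type) [Fintype ι] [DecidableEq ι] [Fintype κ] [DecidableEq κ] [Fintype Λ]
    (b : ι → κ) (χ : Λ → κ → ℤ) (F : Λ → MvPolynomial (ι ⊕ ι) ℂ) (e : κ → ℕ),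
    (∀ k, e k < bn b k) → ∑ k, e k = Fintype.card Λ → (∀ l, Wh b (χ l) (F l)) →
    coeff (Finsupp.equivFunOnFinite.symm e)
      (∏ l, ∑ k, C (χ l k) * X k : MvPolynomial κ ℤ) ≠ 0 →
    ∃ z ∈ Sph b, ∀ l, evc (F l) z = 0

end Pool.Agent.Helper70.BU
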