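import Pool.Agent.Helper70.BU.Goals
import Pool.Agent.Helper49.TW.INJ

/-!
# Project TW, part BU: assembly of the Borsuk-Ulam theorem with weights
-/

namespace Pool.Agent.Helper70.BU

open MvPolynomial

/-- A continuous nonnegative function without zero on the (compact) product of spheres is bounded
below by a positive constant. -/
theorem lower_bound {ι κ : Type} [Fintype ι] [DecidableEq κ] (b : ι → κ)
    (hc : IsCompact (Sph b)) (f : (ι → ℂ) → ℝ) (hf : Continuous f) (hpos : ∀ z ∈ Sph b, 0 < f z) :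
    ∃ c₀ : ℝ, 0 < c₀ ∧ ∀ z ∈ Sph b, c₀ ≤ f z := by
  by_cases hne : (Sph b).Nonempty
  · obtain ⟨z₀, hz₀, hmin⟩ := hc.exists_isMinOn hne hf.continuousOn
    exact ⟨f z₀, hpos z₀ hz₀, fun z hz => hmin hz⟩
  · refine ⟨1, one_pos, fun z hz => absurd ⟨z, hz⟩ hne⟩

theorem continuous_evc {ι : Type} [Fintype ι] (F : MvPolynomial (ι ⊕ ι) ℂ) :
    Continuous (evc F) := by
  unfold evc
  refine (MvPolynomial.continuous_eval F).comp ?_
  refine continuous_pi fun s => ?_
  rcases s with i | i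
  · exact continuous_apply i
  · exact Complex.continuous_conj.comp (continuous_apply i)

/-- The Borsuk-Ulam theorem with weights. -/
theorem but (hP : APXP) (hC : APXC) (hCl : CLIF) (hI : INJ) (hD : DIM) (hDf : DIFF) : BUT := by
  intro ι κ Λ _ _ _ _ _ b χ F hb hsum hW hcoef
  classical
  by_contra hcon
  push Not at hcon
  -- the list of equations
  let L : List (((ι → ℂ) → ℂ) × (κ → ℤ)) :=
    (Finset.univ : Finset Λ).toList.map (fun l => (evc (F l), χ l))
  obtain ⟨hC0, hCneg, -, -⟩ := hC ι κ b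
  have hL : ∀ g ∈ L, Apx b g.1 g.2 ∧ Apx b (fun z => (starRingEnd ℂ) (g.1 z)) (-g.2) := by
    intro g hg
    obtain ⟨l, -, rfl⟩ := List.mem_map.1 hg
    exact hP ι κ b (F l) (χ l) (hW l)
  obtain ⟨P, Q, _, _, p, q, A, hA, hn1, hn2, hdif⟩ := hCl (ι → ℂ) (κ → ℤ) (Apx b) hC0 hCneg L hL
  -- lower bound
  have hφ : ∀ z, (L.map (fun g => ‖g.1 z‖ ^ 2)).sum = ∑ l, ‖evc (F l) z‖ ^ 2 := by
    intro z
    simp only [L, List.map_map]
    rw [← Finset.sum_map_toList]
    rfl
  obtain ⟨c₀, hc₀, hlow⟩ := lower_bound b (Pool.Agent.Helper49.TW.INJ.compact_Sph b)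
    (fun z => ∑ l, ‖evc (F l) z‖ ^ 2)
    (continuous_finsetSum _ fun l _ => ((continuous_evc (F l)).norm.pow 2))
    (by
      intro z hz
      obtain ⟨l, hl⟩ := hcon z hz
      refine Finset.sum_pos' (fun _ _ => by positivity) ⟨l, Finset.mem_univ l, ?_⟩
      have := norm_pos_iff.2 hl
      positivity)
  -- the two injectivity statements
  obtain ⟨n₁, h1⟩ := hI ι κ P Q b p q A c₀ hb hc₀ (fun c a => (hA c a).1) (by
    intro z hz x
    rw [hn1, hφ]
    exact mul_le_mul_of_nonneg_right (hlow z hz) (Finset.sum_nonneg fun _ _ => by positivity))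
  obtain ⟨n₂, h2⟩ := hI ι κ Q P b q p (fun a c z => (starRingEnd ℂ) (A c a z)) c₀ hb hc₀
    (fun a c => (hA c a).2) (by
    intro z hz y
    rw [hn2, hφ]
    exact mul_le_mul_of_nonneg_right (hlow z hz) (Finset.sum_nonneg fun _ _ => by positivity))
  -- the dimension function
  let Y : (κ → ℤ) → ℤ := fun m => (Module.finrank ℂ (H b (fun k => (m k).toNat)) : ℤ)
  have hY : ∀ m : κ → ℤ, (∀ k, 0 ≤ m k) →
      Y m = ∏ k, ((((m k).toNat + (bn b k - 1)).choose (bn b k - 1) : ℕ) : ℤ) := by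
    intro m _
    simp only [Y]
    rw [(hD ι κ b _ hb).2]
    push_cast
    rfl
  have hLen : (L.map Prod.snd).length = ∑ k, (bn b k - 1) := by
    rw [hsum]
    simp [L]
  obtain ⟨B, hB⟩ := hDf κ (fun k => bn b k - 1) (L.map Prod.snd) hLen
  -- a bound for all shifts
  obtain ⟨K₁, hK₁⟩ : ∃ K₁ : ℕ, ∀ a k, |p a k| ≤ (K₁ : ℤ) := by
    refine ⟨∑ a, ∑ k, (|p a k|).toNat, fun a k => ?_⟩
    have h3 : (|p a k|).toNat ≤ ∑ a, ∑ k, (|p a k|).toNat :=
      (Finset.single_le_sum (f := fun k => (|p a k|).toNat) (fun _ _ => Nat.zero_le _)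
        (Finset.mem_univ k)).trans
      (Finset.single_le_sum (f := fun a => ∑ k, (|p a k|).toNat) (fun _ _ => Nat.zero_le _)
        (Finset.mem_univ a))
    have h4 : |p a k| ≤ ((|p a k|).toNat : ℤ) := Int.self_le_toNat _
    exact h4.trans (by exact_mod_cast h3)
  obtain ⟨K₂, hK₂⟩ : ∃ K₂ : ℕ, ∀ c k, |q c k| ≤ (K₂ : ℤ) := by
    refine ⟨∑ a, ∑ k, (|q a k|).toNat, fun a k => ?_⟩
    have h3 : (|q a k|).toNat ≤ ∑ a, ∑ k, (|q a k|).toNat :=
      (Finset.single_le_sum (f := fun k => (|q a k|).toNat) (fun _ _ => Nat.zero_le _)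
        (Finset.mem_univ k)).trans
      (Finset.single_le_sum (f := fun a => ∑ k, (|q a k|).toNat) (fun _ _ => Nat.zero_le _)
        (Finset.mem_univ a))
    have h4 : |q a k| ≤ ((|q a k|).toNat : ℤ) := Int.self_le_toNat _
    exact h4.trans (by exact_mod_cast h3)
  let n : ℕ := n₁ + n₂ + K₁ + K₂ + B.toNat
  have hp0 : ∀ a k, 0 ≤ (n : ℤ) + p a k := by
    intro a k
    have := (abs_le.1 (hK₁ a k)).1
    simp only [n]
    push_cast
    have := Int.toNat_of_nonneg (le_max_right B 0)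
    omega
  have hq0 : ∀ c k, 0 ≤ (n : ℤ) + q c k := by
    intro c k
    have := (abs_le.1 (hK₂ c k)).1
    simp only [n]
    push_cast
    omega
  have e1 := h1 n (by simp only [n]; omega) (fun a k => ((n : ℤ) + p a k).toNat)
    (fun c k => ((n : ℤ) + q c k).toNat) (fun a k => Int.toNat_of_nonneg (hp0 a k))
    (fun c k => Int.toNat_of_nonneg (hq0 c k))
  have e2 := h2 n (by simp only [n]; omega) (fun c k => ((n : ℤ) + q c k).toNat)
    (fun a k => ((n : ℤ) + p a k).toNat) (fun c k => Int.toNat_of_nonneg (hq0 c k))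
    (fun a k => Int.toNat_of_nonneg (hp0 a k))
  have e3 := le_antisymm e1 e2
  have e4 := hdif Y (fun _ => (n : ℤ))
  have e5 : ∑ a, Y ((fun _ => (n : ℤ)) + p a) - ∑ c, Y ((fun _ => (n : ℤ)) + q c) = 0 := by
    have e6 : ∑ a, Y ((fun _ => (n : ℤ)) + p a) =
        ((∑ a, Module.finrank ℂ (H b (fun k => ((n : ℤ) + p a k).toNat)) : ℕ) : ℤ) := by
      push_cast
      rfl
    have e7 : ∑ c, Y ((fun _ => (n : ℤ)) + q c) =
        ((∑ c, Module.finrank ℂ (H b (fun k => ((n : ℤ) + q c k).toNat)) : ℕ) : ℤ) := by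
      push_cast
      rfl
    rw [e6, e7, e3, sub_self]
  have e8 := hB Y hY (fun _ => (n : ℤ)) (fun k => by
    simp only [n]
    push_cast
    have := Int.self_le_toNat B
    omega)
  rw [e5] at e4
  rw [← e4] at e8
  apply hcoef
  have e9 : (-1 : ℤ) ^ (L.map Prod.snd).length ≠ 0 := pow_ne_zero _ (by norm_num)
  have e10 := (mul_eq_zero.1 e8.symm).resolve_left e9
  rw [← e10]
  congr 1
  simp only [L, List.map_map]
  rw [← Finset.prod_map_toList]
  rfl

end Pool.Agent.Helper70.BU
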